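import Mathlib
import Pool.Agent.Lib.helper9.BorsukUlam

set_option autoImplicit false

namespace Pool.Agent.H.MP_ec11a7_an

open Cardinal

universe u

theorem net {E : Type u} [NormedAddCommGroup E] [NormedSpace ℝ E] (X Y : Submodule ℝ E)
    (D : Set E) (hD : D ⊆ Y) (hI : D.Infinite)
    (aX : ∀ x ∈ X, ∀ r, 0 < r → ‖x‖ ≤ r → ∃ d ∈ D, ‖x - d‖ < 0.51 * r)
    (aY : ∀ y ∈ Y, ∀ r, 0 < r → ‖y‖ ≤ r → ∃ x ∈ X, ‖y - x‖ < 0.51 * r) :
    ∃ N : Set E, N ⊆ X ∧ #N ≤ #D ∧ ∀ x ∈ X, ‖x‖ ≤ 1 → ∃ s ∈ N, ‖x - s‖ ≤ 24 / 25 := by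
  have ch : ∀ P : E → Prop, ∃ k ∈ X, (∃ x ∈ X, P x) → P k := by
    intro P
    by_cases h : ∃ x ∈ X, P x
    · obtain ⟨x, hx, h⟩ := h
      exact ⟨x, hx, fun _ => h⟩
    · exact ⟨0, X.zero_mem, fun h' => absurd h' h⟩
  choose c hc hc' using ch
  let K0 : E → E := fun v => c fun x => ‖x - v‖ < 0.51
  let K : E → E → E → E := fun v k w => c fun x => ‖x - v‖ < 0.51 ∧ ‖x - k - w‖ < 0.51 * 1.02
  let ψ : E → E := fun y => c fun x => ‖y - x‖ < 0.51 * 0.8602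
  let F : D × D × D × D → E := fun p =>
    (1 / 3 : ℝ) • (K0 p.1 + K p.1 (K0 p.1) p.2.1 + K p.1 (K p.1 (K0 p.1) p.2.1) p.2.2.1) +
      ψ ((1 / 3 : ℝ) • ((p.2.1 : E) + p.2.2.1 + p.2.2.2))
  refine ⟨Set.range F, ?_, ?_, fun x hx h1 => ?_⟩
  · rintro _ ⟨p, rfl⟩
    exact X.add_mem (X.smul_mem _ (X.add_mem (X.add_mem (hc _) (hc _)) (hc _))) (hc _)
  · refine mk_range_le.trans ?_
    have : ℵ₀ ≤ #D := aleph0_le_mk_iff.2 hI.to_subtype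
    simp [mul_eq_self this]
  · obtain ⟨v, hv, e⟩ := aX x hx 1 one_pos h1
    rw [mul_one] at e
    have st : ∀ k ∈ X, ‖k - v‖ < 0.51 → ‖x - k‖ ≤ 1.02 ∧ ∃ w ∈ D, ‖x - k - w‖ < 0.51 * 1.02 := by
      intro k hk h
      have : ‖x - k‖ ≤ 1.02 := by
        have := norm_sub_le (x - v) (k - v)
        rw [sub_sub_sub_cancel_right] at this
        linarith
      exact ⟨this, aX _ (X.sub_mem hx hk) _ (by norm_num) this⟩
    have k0 : ‖K0 v - v‖ < 0.51 := hc' (fun x => ‖x - v‖ < 0.51) ⟨x, hx, e⟩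
    obtain ⟨b0, v0, hv0, e0⟩ := st (K0 v) (hc _) k0
    have k1 : ‖K v (K0 v) v0 - v‖ < 0.51 ∧ ‖K v (K0 v) v0 - K0 v - v0‖ < 0.51 * 1.02 :=
      hc' (fun x => ‖x - v‖ < 0.51 ∧ ‖x - K0 v - v0‖ < 0.51 * 1.02) ⟨x, hx, e, e0⟩
    obtain ⟨-, v1, hv1, e1⟩ := st (K v (K0 v) v0) (hc _) k1.1
    have k2 : ‖K v (K v (K0 v) v0) v1 - v‖ < 0.51 ∧
        ‖K v (K v (K0 v) v0) v1 - K v (K0 v) v0 - v1‖ < 0.51 * 1.02 :=
      hc' (fun x => ‖x - v‖ < 0.51 ∧ ‖x - K v (K0 v) v0 - v1‖ < 0.51 * 1.02) ⟨x, hx, e, e1⟩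
    obtain ⟨-, v2, hv2, e2⟩ := st (K v (K v (K0 v) v0) v1) (hc _) k2.1
    refine ⟨_, ⟨(⟨v, hv⟩, ⟨v0, hv0⟩, ⟨v1, hv1⟩, ⟨v2, hv2⟩), rfl⟩, ?_⟩
    simp only [F]
    generalize K v (K v (K0 v) v0) v1 = a2 at *
    generalize K v (K0 v) v0 = a1 at *
    generalize K0 v = a0 at *
    have n3 : ∀ p q r : E, ‖(1 / 3 : ℝ) • (p + q + r)‖ ≤ (‖p‖ + ‖q‖ + ‖r‖) / 3 := by
      intro p q r
      rw [norm_smul]
      have := norm_add₃_le (a := p) (b := q) (c := r)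
      norm_num
      linarith
    have hw : ‖(1 / 3 : ℝ) • (v0 + v1 + v2)‖ ≤ 0.8602 := by
      have : (1 / 3 : ℝ) • (v0 + v1 + v2) = (1 / 3 : ℝ) • (x - a0) -
          (1 / 3 : ℝ) • ((a1 - a0 - v0) + (a2 - a1 - v1) + (x - a2 - v2)) := by module
      rw [this]
      refine (norm_sub_le _ _).trans ?_
      have := n3 (a1 - a0 - v0) (a2 - a1 - v1) (x - a2 - v2)
      rw [norm_smul]
      norm_num at *
      linarith [k1.2, k2.2]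
    have hp : ‖(1 / 3 : ℝ) • (v0 + v1 + v2) - ψ ((1 / 3 : ℝ) • (v0 + v1 + v2))‖ < 0.51 * 0.8602 :=
      hc' (fun x => ‖(1 / 3 : ℝ) • (v0 + v1 + v2) - x‖ < 0.51 * 0.8602)
        (aY _ (Y.smul_mem _ (Y.add_mem (Y.add_mem (hD hv0) (hD hv1)) (hD hv2))) _ (by norm_num) hw)
    generalize ψ ((1 / 3 : ℝ) • (v0 + v1 + v2)) = z at *
    have : x - ((1 / 3 : ℝ) • (a0 + a1 + a2) + z) =
        (1 / 3 : ℝ) • ((x - a0 - v0) + (x - a1 - v1) + (x - a2 - v2)) +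
          ((1 / 3 : ℝ) • (v0 + v1 + v2) - z) := by module
    rw [this]
    refine (norm_add_le _ _).trans ?_
    have := n3 (x - a0 - v0) (x - a1 - v1) (x - a2 - v2)
    linarith

theorem dense_of_net {E : Type u} [NormedAddCommGroup E] [NormedSpace ℝ E] (X : Submodule ℝ E)
    (N : Set E) (hN : N ⊆ X) (h : ∀ x ∈ X, ‖x‖ ≤ 1 → ∃ s ∈ N, ‖x - s‖ ≤ 24 / 25) :
    ∃ D : Set E, D ⊆ X ∧ (X : Set E) ⊆ closure D ∧ #D ≤ max ℵ₀ #N := by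
  let F : List (ℚ × N) → E := fun l => (l.map fun p => (p.1 : ℝ) • (p.2 : E)).sum
  have key : ∀ n : ℕ, ∀ c : ℚ, 0 < c → ∀ x ∈ X, ‖x‖ ≤ c → ∃ l, ‖x - F l‖ ≤ (24 / 25) ^ n * c := by
    intro n
    induction n with
    | zero => intro c _ x _ hx; exact ⟨[], by simpa [F] using hx⟩
    | succ n ih =>
      intro c hc x hx hxc
      have c0 : (0 : ℝ) < c := by exact_mod_cast hc
      obtain ⟨s, hs, e⟩ := h ((c : ℝ)⁻¹ • x) (X.smul_mem _ hx) (by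
        rw [norm_smul, norm_inv, Real.norm_of_nonneg c0.le, inv_mul_le_iff₀ c0]; simpa using hxc)
      obtain ⟨l, hl⟩ := ih (24 / 25 * c) (by positivity) (x - (c : ℝ) • s)
        (X.sub_mem hx (X.smul_mem _ (hN hs))) (by
          have : x - (c : ℝ) • s = (c : ℝ) • ((c : ℝ)⁻¹ • x - s) := by
            rw [smul_sub, smul_inv_smul₀ c0.ne']
          rw [this, norm_smul, Real.norm_of_nonneg c0.le]
          push_cast
          nlinarith)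
      refine ⟨(c, ⟨s, hs⟩) :: l, ?_⟩
      simp only [F, List.map_cons, List.sum_cons] at hl ⊢
      rw [← sub_sub]
      push_cast at hl
      rw [pow_succ]
      linarith
  refine ⟨Set.range F, ?_, fun x hx => ?_, ?_⟩
  · rintro _ ⟨l, rfl⟩
    refine list_sum_mem fun y hy => ?_
    obtain ⟨p, _, rfl⟩ := List.mem_map.1 hy
    exact X.smul_mem _ (hN p.2.2)
  · rw [Metric.mem_closure_iff]
    intro ε hε
    obtain ⟨c, hc⟩ := exists_rat_gt ‖x‖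
    have c0 : (0 : ℝ) < c := (norm_nonneg x).trans_lt hc
    obtain ⟨n, hn⟩ := exists_pow_lt_of_lt_one (div_pos hε c0) (by norm_num : (24 / 25 : ℝ) < 1)
    obtain ⟨l, hl⟩ := key n c (by exact_mod_cast c0) x hx hc.le
    refine ⟨_, ⟨l, rfl⟩, ?_⟩
    rw [lt_div_iff₀ c0] at hn
    rw [dist_eq_norm]
    linarith
  · refine mk_range_le.trans ((mk_list_le_max _).trans (max_le (le_max_left _ _) ?_))
    simp only [mk_prod, mk_eq_aleph0, lift_aleph0, lift_uzero]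
    exact (mul_le_max _ _).trans (max_le le_rfl (le_max_left _ _))

theorem approx {E : Type u} [NormedAddCommGroup E] [NormedSpace ℝ E] (X Y : Submodule ℝ E)
    (D : Set E) (hD : (Y : Set E) ⊆ closure D) {θ : ℝ} (hθ : θ < 0.51)
    (h : ∀ x ∈ X, ‖x‖ = 1 → Metric.infDist x Y ≤ θ) :
    ∀ x ∈ X, ∀ r, 0 < r → ‖x‖ ≤ r → ∃ d ∈ D, ‖x - d‖ < 0.51 * r := by
  intro x hx r hr hxr
  have : ∃ y ∈ Y, ‖x - y‖ < 0.51 * r := by
    rcases eq_or_ne x 0 with rfl | h0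
    · exact ⟨0, Y.zero_mem, by simp; positivity⟩
    · have p : 0 < ‖x‖ := norm_pos_iff.2 h0
      obtain ⟨y, hy, e⟩ := (Metric.infDist_lt_iff ⟨0, Y.zero_mem⟩).1
        ((h (‖x‖⁻¹ • x) (X.smul_mem _ hx) (norm_smul_inv_norm h0)).trans_lt hθ)
      refine ⟨‖x‖ • y, Y.smul_mem _ hy, ?_⟩
      have : x - ‖x‖ • y = ‖x‖ • (‖x‖⁻¹ • x - y) := by rw [smul_sub, smul_inv_smul₀ p.ne']
      rw [this, norm_smul, norm_norm, ← dist_eq_norm]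
      nlinarith
  obtain ⟨y, hy, e⟩ := this
  obtain ⟨d, hd, e'⟩ := Metric.mem_closure_iff.1 (hD hy) _ (sub_pos.2 e)
  refine ⟨d, hd, ?_⟩
  have := norm_add_le (x - y) (y - d)
  rw [sub_add_sub_cancel] at this
  rw [dist_eq_norm] at e'
  linarith

theorem dens_le {E : Type u} [NormedAddCommGroup E] [NormedSpace ℝ E] (X Y : Submodule ℝ E)
    (hY : Y ≠ ⊥) {θ : ℝ} (hθ : θ < 0.51) (h1 : ∀ x ∈ X, ‖x‖ = 1 → Metric.infDist x Y ≤ θ)
    (h2 : ∀ x ∈ Y, ‖x‖ = 1 → Metric.infDist x X ≤ θ) (D : Set E) (hD : D ⊆ Y)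
    (hD' : (Y : Set E) ⊆ closure D) :
    ∃ D' : Set E, D' ⊆ X ∧ (X : Set E) ⊆ closure D' ∧ #D' ≤ #D := by
  have hI : D.Infinite := by
    intro hf
    rw [hf.isClosed.closure_eq] at hD'
    obtain ⟨y, hy, y0⟩ := (Submodule.ne_bot_iff _).1 hY
    exact Set.infinite_of_injective_forall_mem (smul_left_injective ℝ y0)
      (fun t => hD' (Y.smul_mem t hy)) hf
  obtain ⟨N, n1, n2, n3⟩ := net X Y D hD hI (approx X Y D hD' hθ h1)
    (approx Y X X subset_closure hθ h2)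
  obtain ⟨D', d1, d2, d3⟩ := dense_of_net X N n1 n3
  exact ⟨D', d1, d2, d3.trans (max_le (aleph0_le_mk_iff.2 hI.to_subtype) n2)⟩

theorem fin_le {𝕜 : Type} [RCLike 𝕜] {E : Type u} [NormedAddCommGroup E] [NormedSpace 𝕜 E]
    (X Y : Submodule 𝕜 E) [FiniteDimensional 𝕜 Y] {θ : ℝ} (hθ : θ < 1)
    (h : ∀ x ∈ X, ‖x‖ = 1 → Metric.infDist x Y ≤ θ) :
    FiniteDimensional 𝕜 X ∧ Module.finrank 𝕜 X ≤ Module.finrank 𝕜 Y := by
  let := NormedSpace.restrictScalars ℝ 𝕜 E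
  have : IsScalarTower ℝ 𝕜 E := IsScalarTower.restrictScalars ℝ 𝕜 E
  have : FiniteDimensional ℝ Y := Module.Finite.trans 𝕜 Y
  have : FiniteDimensional ℝ (Y.restrictScalars ℝ) := this
  obtain ⟨a, b⟩ := Pool.Agent.Lib.helper9.BorsukUlam.kkm (X.restrictScalars ℝ)
    (Y.restrictScalars ℝ) fun x hx h1 => by
      obtain ⟨y, hy, e⟩ := (Metric.infDist_lt_iff ⟨0, Y.zero_mem⟩).1 ((h x hx h1).trans_lt hθ)
      exact ⟨y, hy, by rwa [← dist_eq_norm]⟩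
  have : FiniteDimensional ℝ X := a
  refine ⟨Module.Finite.of_restrictScalars_finite ℝ 𝕜 X, ?_⟩
  have b' : Module.finrank ℝ X ≤ Module.finrank ℝ Y := b
  rw [← Module.finrank_mul_finrank ℝ 𝕜 X, ← Module.finrank_mul_finrank ℝ 𝕜 Y] at b'
  exact Nat.le_of_mul_le_mul_left b' Module.finrank_pos

end Pool.Agent.H.MP_ec11a7_an
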